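import Pool.Agent.KS.Tr
import Mathlib.Analysis.SpecialFunctions.Log.Deriv
import Mathlib.Analysis.Calculus.MeanValue

/-! Upper bound for the expected matching number of the uniform matrix: `F(J_n) ≤ γ n + 5/2`. -/

namespace Pool.KX

open Finset Pool.KS

set_option linter.unusedSectionVars false

section zero
variable {ε : Type*} [Fintype ε] [DecidableEq ε]

theorem up_erase (p : ε → ℝ) (e : ε) (G : Finset ε → ℝ) :
    Ex p (fun E => G (E.erase e)) = Ex (Function.update p e 0) G := by
  rw [Ex_split p e, Ex_split (Function.update p e 0) e]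
  refine Finset.sum_congr rfl (fun E hE => ?_)
  rw [Finset.mem_powerset] at hE
  have he : e ∉ E := fun h => Finset.notMem_erase e univ (hE h)
  have hw : W' (Function.update p e 0) e E = W' p e E := by
    unfold W'
    refine Finset.prod_congr rfl (fun x hx => ?_)
    have hxe : x ≠ e := (Finset.mem_erase.mp hx).1
    rw [Function.update_of_ne hxe]
  rw [hw, Finset.erase_eq_of_notMem he, Finset.erase_insert he, Function.update_self]
  ring

theorem up_sdiff (Z : Finset ε) : ∀ (p : ε → ℝ) (G : Finset ε → ℝ),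
    Ex p (fun E => G (E \ Z)) = Ex (fun e => if e ∈ Z then 0 else p e) G := by
  classical
  induction Z using Finset.induction_on with
  | empty => intro p G; simp
  | insert e Z he ih =>
    intro p G
    have h1 : ∀ E : Finset ε, E \ insert e Z = (E.erase e) \ Z := by
      intro E
      ext x
      simp only [Finset.mem_sdiff, Finset.mem_insert, Finset.mem_erase]
      tauto
    have h2 : Ex p (fun E => G (E \ insert e Z)) = Ex p (fun E => G ((E.erase e) \ Z)) :=
      Ex_congr p (fun E => by rw [h1])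
    rw [h2, up_erase p e (fun E => G (E \ Z)), ih]
    congr 1
    funext x
    by_cases hx : x = e
    · subst hx
      simp [he]
    · simp [hx]

end zero

variable {I J : Type*} [Fintype I] [Fintype J] [DecidableEq I] [DecidableEq J]

theorem up_dR (p : I × J → ℝ) (i : I) (G : Finset (I × J) → ℝ) :
    Ex p (fun E => G (dR i E)) = Ex (fun e => if e.1 = i then 0 else p e) G := by
  have h1 : ∀ E : Finset (I × J), dR i E = E \ univ.filter (fun e : I × J => e.1 = i) := by
    intro E
    ext x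
    simp only [mem_dR, Finset.mem_sdiff, Finset.mem_filter, Finset.mem_univ, true_and]
  have h2 : Ex p (fun E => G (dR i E)) =
      Ex p (fun E => G (E \ univ.filter (fun e : I × J => e.1 = i))) :=
    Ex_congr p (fun E => by rw [h1])
  rw [h2, up_sdiff]
  congr 1
  funext x
  simp

theorem up_dC (p : I × J → ℝ) (j : J) (G : Finset (I × J) → ℝ) :
    Ex p (fun E => G (dC j E)) = Ex (fun e => if e.2 = j then 0 else p e) G := by
  have h1 : ∀ E : Finset (I × J), dC j E = E \ univ.filter (fun e : I × J => e.2 = j) := by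
    intro E
    ext x
    simp only [mem_dC, Finset.mem_sdiff, Finset.mem_filter, Finset.mem_univ, true_and]
  have h2 : Ex p (fun E => G (dC j E)) =
      Ex p (fun E => G (E \ univ.filter (fun e : I × J => e.2 = j))) :=
    Ex_congr p (fun E => by rw [h1])
  rw [h2, up_sdiff]
  congr 1
  funext x
  simp

/-- the uniform model on the rows `S` and the columns `T` -/
noncomputable def ps (q : ℝ) (S : Finset I) (T : Finset J) : I × J → ℝ :=
  fun e => if e.1 ∈ S ∧ e.2 ∈ T then q else 0

noncomputable def fx (q : ℝ) (S : Finset I) (T : Finset J) : ℝ :=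
  Ex (ps q S T) (fun E => (nu E : ℝ))

theorem up_ps_row (q : ℝ) {S : Finset I} (T : Finset J) {i : I} (hi : i ∉ S) :
    (fun e : I × J => if e.1 = i then 0 else ps q (insert i S) T e) = ps q S T := by
  funext e
  unfold ps
  by_cases h : e.1 = i
  · rw [if_pos h, if_neg]
    rintro ⟨h1, _⟩
    exact hi (h ▸ h1)
  · rw [if_neg h]
    congr 1
    rw [Finset.mem_insert]
    apply propext
    constructor
    · rintro ⟨h1 | h1, h2⟩
      · exact absurd h1 h
      · exact ⟨h1, h2⟩
    · rintro ⟨h1, h2⟩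
      exact ⟨Or.inr h1, h2⟩

theorem up_ps_col (q : ℝ) (S : Finset I) (T : Finset J) (j : J) :
    (fun e : I × J => if e.2 = j then 0 else ps q S T e) = ps q S (T.erase j) := by
  funext e
  unfold ps
  by_cases h : e.2 = j
  · rw [if_pos h, if_neg]
    rintro ⟨_, h1⟩
    rw [h] at h1
    exact Finset.notMem_erase j T h1
  · rw [if_neg h]
    congr 1
    rw [Finset.mem_erase]
    apply propext
    constructor
    · rintro ⟨h1, h2⟩
      exact ⟨h1, h, h2⟩
    · rintro ⟨h1, _, h2⟩
      exact ⟨h1, h2⟩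

theorem nu_Xi (i : I) (E : Finset (I × J)) : (nu E : ℝ) = nu (dR i E) + 1 - Xi i E := by
  unfold Xi
  split_ifs with h
  · rw [mem_Lm] at h
    rw [← h]; ring
  · rw [not_mem_Lm] at h
    rw [h]; push_cast; ring

theorem nu_Yj (j : J) (E : Finset (I × J)) : (nu E : ℝ) = nu (dC j E) + 1 - Yj j E := by
  unfold Yj
  split_ifs with h
  · rw [mem_Rm] at h
    rw [← h]; ring
  · rw [not_mem_Rm] at h
    rw [h]; push_cast; ring

theorem step_row (q : ℝ) {S : Finset I} (T : Finset J) {i : I} (hi : i ∉ S) :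
    fx q (insert i S) T = fx q S T + 1 -
      Ex (ps q S T) (fun E => (1 - q) ^ ((Rm E ∩ T).card)) := by
  unfold fx
  have h1 : Ex (ps q (insert i S) T) (fun E => (nu E : ℝ)) =
      Ex (ps q (insert i S) T) (fun E => (nu (dR i E) : ℝ)) + 1 -
        Ex (ps q (insert i S) T) (Xi i) := by
    have h2 : Ex (ps q (insert i S) T) (fun E => (nu E : ℝ)) =
        Ex (ps q (insert i S) T) (fun E => ((nu (dR i E) : ℝ) + 1) - Xi i E) :=
      Ex_congr _ (fun E => nu_Xi i E)
    rw [h2, Ex_sub, Ex_add, Ex_const]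
  rw [h1, Ex_Xi, up_dR _ i (fun E => (nu E : ℝ)), up_ps_row q T hi]
  congr 1
  rw [up_dR (ps q (insert i S) T) i (fun E => U (ps q (insert i S) T) i (Rm E)),
    up_ps_row q T hi]
  refine Ex_congr _ (fun E => ?_)
  unfold U ps
  have h3 : ∀ j ∈ Rm E, (1 - (if ((i, j) : I × J).1 ∈ insert i S ∧ ((i, j) : I × J).2 ∈ T
      then q else 0)) = if j ∈ T then 1 - q else 1 := by
    intro j _
    by_cases h : j ∈ T
    · simp [h]
    · simp [h]
  rw [Finset.prod_congr rfl h3, Finset.prod_ite_mem]
  simp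

theorem step_col (q : ℝ) (S : Finset I) (T : Finset J) (j : J) :
    Ex (ps q S T) (Yj j) = 1 - (fx q S T - fx q S (T.erase j)) := by
  unfold fx
  have h1 : Ex (ps q S T) (fun E => (nu E : ℝ)) =
      Ex (ps q S T) (fun E => (nu (dC j E) : ℝ)) + 1 - Ex (ps q S T) (Yj j) := by
    have h2 : Ex (ps q S T) (fun E => (nu E : ℝ)) =
        Ex (ps q S T) (fun E => ((nu (dC j E) : ℝ) + 1) - Yj j E) :=
      Ex_congr _ (fun E => nu_Yj j E)
    rw [h2, Ex_sub, Ex_add, Ex_const]
  rw [h1, up_dC _ j (fun E => (nu E : ℝ)), up_ps_col]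
  ring

theorem ps_nonneg {q : ℝ} (h : 0 ≤ q) (S : Finset I) (T : Finset J) (e : I × J) :
    0 ≤ ps q S T e := by
  unfold ps; split_ifs <;> simp [h]

theorem ps_le_one {q : ℝ} (h : q ≤ 1) (S : Finset I) (T : Finset J) (e : I × J) :
    ps q S T e ≤ 1 := by
  unfold ps; split_ifs <;> simp [h]

theorem card_Rm_inter (E : Finset (I × J)) (T : Finset J) :
    (((Rm E ∩ T).card : ℕ) : ℝ) = ∑ j ∈ T, Yj j E := by
  unfold Yj
  rw [Finset.sum_ite_mem, Finset.inter_comm]
  simp

/-- Jensen: the row step as an inequality -/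
theorem jensen (N : ℕ) (hN : 0 < N) (S : Finset I) (T : Finset J) :
    Real.exp (-((∑ j ∈ T, (1 - (fx (1 / ((N : ℝ) + 1)) S T -
        fx (1 / ((N : ℝ) + 1)) S (T.erase j)))) / N)) ≤
      Ex (ps (1 / ((N : ℝ) + 1)) S T)
        (fun E => (1 - 1 / ((N : ℝ) + 1)) ^ ((Rm E ∩ T).card)) := by
  have hN' : (0 : ℝ) < N := by exact_mod_cast hN
  set q : ℝ := 1 / ((N : ℝ) + 1) with hq
  have hq0 : 0 ≤ q := by rw [hq]; positivity
  have hq1 : q ≤ 1 := by
    rw [hq, div_le_one (by linarith)]; linarith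
  set M : ℝ := (∑ j ∈ T, (1 - (fx q S T - fx q S (T.erase j)))) / N with hM
  have hE : Ex (ps q S T) (fun E => ∑ j ∈ T, Yj j E) =
      ∑ j ∈ T, (1 - (fx q S T - fx q S (T.erase j))) := by
    rw [Ex_sum]
    exact Finset.sum_congr rfl (fun j _ => step_col q S T j)
  have hw : Real.exp (-(1 / (N : ℝ))) ≤ 1 - q := by
    have h1 : 1 - q = (1 + 1 / (N : ℝ))⁻¹ := by
      rw [hq]; field_simp; ring
    rw [h1, Real.exp_neg]
    apply inv_anti₀ (by positivity)
    have := Real.add_one_le_exp (1 / (N : ℝ))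
    linarith
  have hpt : ∀ E : Finset (I × J), Real.exp (-M) * (1 + M - (∑ j ∈ T, Yj j E) / N) ≤
      (1 - q) ^ ((Rm E ∩ T).card) := by
    intro E
    have h1 : Real.exp (-((((Rm E ∩ T).card : ℕ) : ℝ) / N)) ≤ (1 - q) ^ ((Rm E ∩ T).card) := by
      have h2 := pow_le_pow_left₀ (Real.exp_pos _).le hw ((Rm E ∩ T).card)
      rw [← Real.exp_nat_mul] at h2
      refine le_trans (le_of_eq ?_) h2
      congr 1; ring
    refine le_trans ?_ h1
    rw [card_Rm_inter]
    have h3 := Real.add_one_le_exp (M - (∑ j ∈ T, Yj j E) / N)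
    have h4 : Real.exp (-((∑ j ∈ T, Yj j E) / N)) =
        Real.exp (-M) * Real.exp (M - (∑ j ∈ T, Yj j E) / N) := by
      rw [← Real.exp_add]; congr 1; ring
    rw [h4]
    refine mul_le_mul_of_nonneg_left ?_ (Real.exp_pos _).le
    linarith
  have h5 := Ex_mono (ps_nonneg hq0 S T) (ps_le_one hq1 S T) hpt
  refine le_trans (le_of_eq ?_) h5
  have h6 : ∀ E : Finset (I × J), Real.exp (-M) * (1 + M - (∑ j ∈ T, Yj j E) / N) =
      Real.exp (-M) * (1 + M) - (Real.exp (-M) / N) * (∑ j ∈ T, Yj j E) := by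
    intro E; ring
  rw [Ex_congr _ h6, Ex_sub, Ex_const, Ex_mul_left, hE]
  have h7 : (∑ j ∈ T, (1 - (fx q S T - fx q S (T.erase j)))) = M * N := by
    rw [hM]; field_simp
  rw [h7]
  field_simp
  ring

/-- the comparison function -/
noncomputable def GG (N m k y : ℝ) : ℝ :=
  m * (1 - Real.exp (-(k * y / N))) + k * (1 - y + y * Real.log y)

theorem g_hasDeriv (s c t : ℝ) (ht : 0 < t) :
    HasDerivAt (fun x => s * (1 - Real.exp (-(c * x))) + c * (1 - x + x * Real.log x))
      (c * (s * Real.exp (-(c * t)) + Real.log t)) t := by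
  have h1 : HasDerivAt (fun x : ℝ => -(c * x)) (-(c * 1)) t :=
    ((hasDerivAt_id' t).const_mul c).neg
  have h2 := ((h1.exp).const_sub 1).const_mul s
  have h3 := (hasDerivAt_id' t).mul (Real.hasDerivAt_log ht.ne')
  have h4 := ((((hasDerivAt_id' t).const_sub 1).add h3).const_mul c)
  have h5 := h2.add h4
  have e : s * -(Real.exp (-(c * t)) * -(c * 1)) + c * (-1 + (1 * Real.log t + t * t⁻¹)) =
      c * (s * Real.exp (-(c * t)) + Real.log t) := by
    rw [mul_inv_cancel₀ ht.ne']; ring
  rw [← e]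
  exact h5

theorem h_mono {s c u t : ℝ} (hs0 : 0 ≤ s) (hs : s ≤ 1) (hc0 : 0 ≤ c) (hc : c ≤ 1)
    (hu : 0 < u) (hut : u ≤ t) (ht : t ≤ 1) :
    s * Real.exp (-(c * u)) + Real.log u ≤ s * Real.exp (-(c * t)) + Real.log t := by
  have ht0 : 0 < t := lt_of_lt_of_le hu hut
  have h1 : t - u ≤ Real.log t - Real.log u := by
    have h2 := Real.log_le_sub_one_of_pos (div_pos hu ht0)
    rw [Real.log_div hu.ne' ht0.ne'] at h2
    have h3 : u / t - 1 = -((t - u) / t) := by field_simp; ring
    have h4 : t - u ≤ (t - u) / t := by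
      rw [le_div_iff₀ ht0]; nlinarith
    linarith
  have h2 : Real.exp (-(c * u)) - Real.exp (-(c * t)) ≤ t - u := by
    have h3 : Real.exp (-(c * t)) = Real.exp (-(c * u)) * Real.exp (-(c * (t - u))) := by
      rw [← Real.exp_add]; congr 1; ring
    have h4 := Real.add_one_le_exp (-(c * (t - u)))
    have h5 : Real.exp (-(c * u)) ≤ 1 := by
      rw [Real.exp_le_one_iff]; nlinarith [mul_nonneg hc0 hu.le]
    have h6 := Real.exp_pos (-(c * u))
    have h7 : 0 ≤ c * (t - u) := mul_nonneg hc0 (by linarith)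
    have h8 : c * (t - u) ≤ t - u := by nlinarith
    rw [h3]
    nlinarith [Real.exp_pos (-(c * (t - u)))]
  have h3 : s * (Real.exp (-(c * u)) - Real.exp (-(c * t))) ≤ t - u := by
    have h4 : 0 ≤ Real.exp (-(c * u)) - Real.exp (-(c * t)) := by
      have : Real.exp (-(c * t)) ≤ Real.exp (-(c * u)) := by
        apply Real.exp_le_exp.mpr; nlinarith
      linarith
    nlinarith
  nlinarith

theorem g_min {s c u y : ℝ} (hs0 : 0 ≤ s) (hs : s ≤ 1) (hc0 : 0 ≤ c) (hc : c ≤ 1)
    (hu : 0 < u) (hu1 : u ≤ 1) (hy : 0 < y) (hy1 : y ≤ 1)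
    (h0 : s * Real.exp (-(c * u)) + Real.log u = 0) :
    s * (1 - Real.exp (-(c * u))) + c * (1 - u + u * Real.log u) ≤
      s * (1 - Real.exp (-(c * y))) + c * (1 - y + y * Real.log y) := by
  rcases le_total u y with h | h
  · have hm : MonotoneOn (fun x => s * (1 - Real.exp (-(c * x))) + c * (1 - x + x * Real.log x))
        (Set.Icc u y) := by
      apply monotoneOn_of_deriv_nonneg (convex_Icc u y)
      · intro x hx
        exact (g_hasDeriv s c x (lt_of_lt_of_le hu hx.1)).continuousAt.continuousWithinAt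
      · intro x hx
        rw [interior_Icc] at hx
        exact (g_hasDeriv s c x (lt_trans hu hx.1)).differentiableAt.differentiableWithinAt
      · intro x hx
        rw [interior_Icc] at hx
        rw [(g_hasDeriv s c x (lt_trans hu hx.1)).deriv]
        have := h_mono hs0 hs hc0 hc hu hx.1.le (hx.2.le.trans hy1)
        rw [h0] at this
        exact mul_nonneg hc0 this
    exact hm ⟨le_refl u, h⟩ ⟨h, le_refl y⟩ h
  · have hm : AntitoneOn (fun x => s * (1 - Real.exp (-(c * x))) + c * (1 - x + x * Real.log x))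
        (Set.Icc y u) := by
      apply antitoneOn_of_deriv_nonpos (convex_Icc y u)
      · intro x hx
        exact (g_hasDeriv s c x (lt_of_lt_of_le hy hx.1)).continuousAt.continuousWithinAt
      · intro x hx
        rw [interior_Icc] at hx
        exact (g_hasDeriv s c x (lt_trans hy hx.1)).differentiableAt.differentiableWithinAt
      · intro x hx
        rw [interior_Icc] at hx
        rw [(g_hasDeriv s c x (lt_trans hy hx.1)).deriv]
        have := h_mono hs0 hs hc0 hc (lt_trans hy hx.1) hx.2.le hu1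
        rw [h0] at this
        exact mul_nonpos_of_nonneg_of_nonpos hc0 this
    exact hm ⟨le_refl y, h⟩ ⟨h, le_refl u⟩ h

theorem exists_crit {s c : ℝ} (hs0 : 0 < s) (hs : s ≤ 1) (hc0 : 0 ≤ c) (hc : c ≤ 1) :
    ∃ u : ℝ, 0 < u ∧ u ≤ 1 ∧ s * Real.exp (-(c * u)) + Real.log u = 0 := by
  have hcont : ContinuousOn (fun u : ℝ => s * Real.exp (-(c * u)) + Real.log u)
      (Set.Icc (Real.exp (-1)) 1) := by
    refine ContinuousOn.add (by fun_prop) ?_
    exact Real.continuousOn_log.mono (fun x hx => by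
      have : 0 < x := lt_of_lt_of_le (Real.exp_pos _) hx.1
      exact this.ne')
  have hle : Real.exp (-1) ≤ 1 := by rw [Real.exp_le_one_iff]; norm_num
  have hmem : (0 : ℝ) ∈ Set.Icc (s * Real.exp (-(c * Real.exp (-1))) + Real.log (Real.exp (-1)))
      (s * Real.exp (-(c * 1)) + Real.log 1) := by
    constructor
    · rw [Real.log_exp]
      have h1 : Real.exp (-(c * Real.exp (-1))) ≤ 1 := by
        rw [Real.exp_le_one_iff]
        have := mul_nonneg hc0 (Real.exp_pos (-1)).le
        linarith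
      have h2 := Real.exp_pos (-(c * Real.exp (-1)))
      nlinarith
    · rw [Real.log_one, add_zero]; positivity
  obtain ⟨u, hu, hu0⟩ := intermediate_value_Icc hle hcont hmem
  exact ⟨u, lt_of_lt_of_le (Real.exp_pos _) hu.1, hu.2, hu0⟩

/-- the analytic step -/
theorem step_real {N m k a B : ℝ} (hN : 1 ≤ N) (hm0 : 0 ≤ m) (hm : m + 1 ≤ N) (hk0 : 0 ≤ k)
    (hk : k ≤ N)
    (ha : ∀ y, 0 < y → y ≤ 1 → a ≤ GG N m k y + m / N)
    (hB : ∀ y, 0 < y → y ≤ 1 → B ≤ k * (GG N m (k - 1) y + m / N))
    (y : ℝ) (hy : 0 < y) (hy1 : y ≤ 1) :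
    a + 1 - Real.exp (-((k * (1 - a) + B) / N)) ≤ GG N (m + 1) k y + (m + 1) / N := by
  have hN0 : 0 < N := by linarith
  set s : ℝ := (m + 1) / N with hs
  set c : ℝ := k / N with hc
  have hs0 : 0 < s := by rw [hs]; positivity
  have hs1 : s ≤ 1 := by rw [hs, div_le_one hN0]; exact hm
  have hc0 : 0 ≤ c := by rw [hc]; positivity
  have hc1 : c ≤ 1 := by rw [hc, div_le_one hN0]; exact hk
  obtain ⟨u, hu, hu1, hcrit⟩ := exists_crit hs0 hs1 hc0 hc1
  have ha1 := ha u hu hu1
  have hB1 := hB u hu hu1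
  set a1 : ℝ := GG N m k u + m / N with ha1d
  set b1 : ℝ := GG N m (k - 1) u + m / N with hb1d
  set e : ℝ := Real.exp (-(c * u)) with he
  have he0 : 0 < e := Real.exp_pos _
  have he1 : e ≤ 1 := by
    rw [he, Real.exp_le_one_iff]
    have := mul_nonneg hc0 hu.le
    linarith
  have hlog : Real.log u = -(s * e) := by linarith
  set x : ℝ := u / N with hx
  have hx0 : 0 ≤ x := by rw [hx]; positivity
  have hx1 : x ≤ 1 := by rw [hx, div_le_one hN0]; linarith
  have hE1 : Real.exp (-(k * u / N)) = e := by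
    rw [he]; congr 1; rw [hc]; ring
  have hE2 : Real.exp (-((k - 1) * u / N)) = e * Real.exp x := by
    rw [he, ← Real.exp_add]; congr 1; rw [hc, hx]; field_simp; ring
  have heta : 1 - a1 + b1 = u + u * (s * e) - m * e * (Real.exp x - 1) := by
    rw [ha1d, hb1d]
    unfold GG
    rw [hE1, hE2, hlog]
    ring
  have hxe1 : x ≤ Real.exp x - 1 := by have := Real.add_one_le_exp x; linarith
  have hxe2 : Real.exp x - 1 ≤ x + x ^ 2 := by
    have := Real.abs_exp_sub_one_sub_id_le (x := x) (by rw [abs_of_nonneg hx0]; exact hx1)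
    have h2 := le_abs_self (Real.exp x - 1 - x)
    linarith
  have hmx : m * x = (s * N - 1) * u / N := by rw [hs, hx]; field_simp; ring
  have hmx2 : m * x = s * u - x := by rw [hmx, hx]; field_simp
  have hmle : m * x ^ 2 ≤ x := by
    have h1 : m * x ≤ 1 := by
      have h2 : m * x ≤ m / N := by
        rw [hx, ← mul_div_assoc]
        apply div_le_div_of_nonneg_right _ hN0.le
        nlinarith
      have h3 : m / N ≤ 1 := by rw [div_le_one hN0]; linarith
      linarith
    nlinarith
  have heta1 : 1 - a1 + b1 ≤ u + 1 / N := by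
    rw [heta]
    have h1 : m * e * x ≤ m * e * (Real.exp x - 1) :=
      mul_le_mul_of_nonneg_left hxe1 (by positivity)
    have h2 : m * e * x = e * (s * u - x) := by rw [← hmx2]; ring
    have h3 : e * x ≤ 1 / N := by
      rw [hx]
      have : u / N ≤ 1 / N := div_le_div_of_nonneg_right hu1 hN0.le
      have h4 : 0 ≤ u / N := by positivity
      nlinarith
    nlinarith
  have heta0 : 0 ≤ 1 - a1 + b1 := by
    rw [heta]
    have h1 : m * e * (Real.exp x - 1) ≤ m * e * (x + x ^ 2) :=
      mul_le_mul_of_nonneg_left hxe2 (by positivity)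
    have h2 : m * e * (x + x ^ 2) = e * (m * x) + e * (m * x ^ 2) := by ring
    have h3 : e * (m * x ^ 2) ≤ e * x := mul_le_mul_of_nonneg_left hmle he0.le
    have h4 : e * (m * x) = e * (s * u - x) := by rw [hmx2]
    nlinarith
  -- monotonicity
  have hD : (k * (1 - a) + B) / N ≤ c * (1 - a1 + b1) + c * (a1 - a) := by
    have : c * (1 - a1 + b1) + c * (a1 - a) = (k * (1 - a) + k * b1) / N := by
      rw [hc]; ring
    rw [this]
    exact div_le_div_of_nonneg_right (by linarith) hN0.le
  have h1 : Real.exp (-(c * (1 - a1 + b1) + c * (a1 - a))) ≤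
      Real.exp (-((k * (1 - a) + B) / N)) := Real.exp_le_exp.mpr (by linarith)
  have h2 : Real.exp (-(c * (1 - a1 + b1))) - (a1 - a) ≤
      Real.exp (-(c * (1 - a1 + b1) + c * (a1 - a))) := by
    have h3 : Real.exp (-(c * (1 - a1 + b1) + c * (a1 - a))) =
        Real.exp (-(c * (1 - a1 + b1))) * Real.exp (-(c * (a1 - a))) := by
      rw [← Real.exp_add]; congr 1; ring
    have h4 := Real.add_one_le_exp (-(c * (a1 - a)))
    have h5 : Real.exp (-(c * (1 - a1 + b1))) ≤ 1 := by
      rw [Real.exp_le_one_iff]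
      have := mul_nonneg hc0 heta0
      linarith
    have h6 := Real.exp_pos (-(c * (1 - a1 + b1)))
    have h7 : 0 ≤ a1 - a := by linarith
    have h8 : c * (a1 - a) ≤ a1 - a := by nlinarith
    have h9 : 0 ≤ c * (a1 - a) := mul_nonneg hc0 h7
    rw [h3]
    nlinarith
  have h3 : e - 1 / N ≤ Real.exp (-(c * (1 - a1 + b1))) := by
    have h4 : Real.exp (-(c * (u + 1 / N))) ≤ Real.exp (-(c * (1 - a1 + b1))) := by
      apply Real.exp_le_exp.mpr
      have := mul_le_mul_of_nonneg_left heta1 hc0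
      linarith
    have h5 : Real.exp (-(c * (u + 1 / N))) = e * Real.exp (-(c * (1 / N))) := by
      rw [he, ← Real.exp_add]; congr 1; ring
    have h6 := Real.add_one_le_exp (-(c * (1 / N)))
    have h7 : 0 ≤ 1 / N := by positivity
    have h8 : c * (1 / N) ≤ 1 / N := by nlinarith
    have h9 : 0 ≤ c * (1 / N) := mul_nonneg hc0 h7
    rw [h5] at h4
    nlinarith
  have h4 : a + 1 - Real.exp (-((k * (1 - a) + B) / N)) ≤ a1 + 1 - e + 1 / N := by linarith
  have h5 : a1 + 1 - e + 1 / N = GG N (m + 1) k u + (m + 1) / N := by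
    rw [ha1d]
    unfold GG
    rw [hE1]
    ring
  have h6 : GG N (m + 1) k u ≤ GG N (m + 1) k y := by
    have h7 := g_min hs0.le hs1 hc0 hc1 hu hu1 hy hy1 hcrit
    have h8 : ∀ t : ℝ, GG N (m + 1) k t =
        N * (s * (1 - Real.exp (-(c * t))) + c * (1 - t + t * Real.log t)) := by
      intro t
      unfold GG
      have : Real.exp (-(k * t / N)) = Real.exp (-(c * t)) := by
        congr 1; rw [hc]; ring
      rw [this, hs, hc]
      field_simp
    rw [h8 u, h8 y]
    exact mul_le_mul_of_nonneg_left h7 hN0.le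
  linarith

theorem fx_empty (q : ℝ) (T : Finset J) : fx q (∅ : Finset I) T = 0 := by
  unfold fx Ex
  refine Finset.sum_eq_zero (fun E _ => ?_)
  by_cases hE : E = ∅
  · subst hE
    have : nu (∅ : Finset (I × J)) = 0 := by
      obtain ⟨M, hs, _, hc⟩ := exists_max (∅ : Finset (I × J))
      rw [← hc, Finset.subset_empty.mp hs, Finset.card_empty]
    show _ * ((nu (∅ : Finset (I × J)) : ℕ) : ℝ) = 0
    rw [this]; simp
  · obtain ⟨e, he⟩ := Finset.nonempty_of_ne_empty hE
    have : W (ps q (∅ : Finset I) T) E = 0 := by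
      unfold W
      refine Finset.prod_eq_zero (Finset.mem_univ e) ?_
      rw [if_pos he]
      unfold ps
      simp
    rw [this, zero_mul]

theorem fx_upper (N : ℕ) (hN : 0 < N) (S : Finset I) : S.card ≤ N → ∀ T : Finset J, T.card ≤ N →
    ∀ y : ℝ, 0 < y → y ≤ 1 →
    fx (1 / ((N : ℝ) + 1)) S T ≤ GG N S.card T.card y + (S.card : ℝ) / N := by
  have hN' : (1 : ℝ) ≤ N := by exact_mod_cast hN
  induction S using Finset.induction_on with
  | empty =>
    intro _ T _ y hy hy1
    rw [fx_empty]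
    unfold GG
    simp only [Finset.card_empty, Nat.cast_zero, zero_mul, zero_add, zero_div, add_zero]
    refine mul_nonneg (Nat.cast_nonneg _) ?_
    have h1 := Real.log_le_sub_one_of_pos (inv_pos.mpr hy)
    rw [Real.log_inv] at h1
    have h2 : y * (y⁻¹ - 1) = 1 - y := by field_simp
    nlinarith
  | insert i S hi ih =>
    intro hS T hT y hy hy1
    rw [Finset.card_insert_of_notMem hi] at hS ⊢
    have hS' : S.card ≤ N := by omega
    rw [step_row _ T hi]
    have hJ := jensen N hN S T
    set q : ℝ := 1 / ((N : ℝ) + 1) with hq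
    have hsum : (∑ j ∈ T, (1 - (fx q S T - fx q S (T.erase j)))) =
        (T.card : ℝ) * (1 - fx q S T) + ∑ j ∈ T, fx q S (T.erase j) := by
      have : ∀ j ∈ T, (1 - (fx q S T - fx q S (T.erase j))) =
          (1 - fx q S T) + fx q S (T.erase j) := fun j _ => by ring
      rw [Finset.sum_congr rfl this, Finset.sum_add_distrib, Finset.sum_const, nsmul_eq_mul]
    rw [hsum] at hJ
    have hm : (S.card : ℝ) + 1 ≤ N := by exact_mod_cast hS
    have key := step_real (N := (N : ℝ)) (m := S.card) (k := T.card) (a := fx q S T)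
      (B := ∑ j ∈ T, fx q S (T.erase j)) hN' (Nat.cast_nonneg _) hm (Nat.cast_nonneg _)
      (by exact_mod_cast hT)
      (fun y hy hy1 => ih hS' T hT y hy hy1)
      (fun y hy hy1 => by
        have h1 : ∀ j ∈ T, fx q S (T.erase j) ≤
            GG N S.card ((T.card : ℝ) - 1) y + (S.card : ℝ) / N := by
          intro j hj
          have h2 := ih hS' (T.erase j) (by rw [Finset.card_erase_of_mem hj]; omega) y hy hy1
          rw [Finset.card_erase_of_mem hj] at h2
          have h3 : 1 ≤ T.card := Finset.card_pos.mpr ⟨j, hj⟩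
          rw [Nat.cast_sub h3, Nat.cast_one] at h2
          exact h2
        have h4 := Finset.sum_le_card_nsmul T _ _ h1
        rw [nsmul_eq_mul] at h4
        exact h4)
      y hy hy1
    push_cast
    linarith

/-- the uniform matrix of size `N + 1` -/
theorem fx_univ_upper (N : ℕ) (hN : 0 < N) (hI : Fintype.card I = N + 1)
    (hJ : Fintype.card J = N + 1) {l : ℝ} (hl : Real.exp (-l) = l) :
    Ex (fun _ : I × J => 1 / ((N : ℝ) + 1)) (fun E => (nu E : ℝ)) ≤
      (2 * (1 - l) - l ^ 2) * (N + 1) + 5 / 2 := by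
  have hl0 : 0 < l := by rw [← hl]; exact Real.exp_pos _
  have hl1 : l ≤ 1 := by
    rw [← hl, Real.exp_le_one_iff]; linarith
  have hl2 : l ≤ 29 / 50 := by
    by_contra h
    push Not at h
    have h1 : Real.exp (-l) < Real.exp (-(29 / 50)) := Real.exp_lt_exp.mpr (by linarith)
    have h2 : Real.exp (-(29 / 50)) ≤ 29 / 50 := by
      have h3 : Real.exp (-(29 / 50)) * Real.exp (29 / 50) = 1 := by
        rw [← Real.exp_add]; norm_num
      have h4 : (50 : ℝ) / 29 ≤ Real.exp (29 / 50) := by
        have h5 := Real.quadratic_le_exp_of_nonneg (x := 29 / 50) (by norm_num)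
        linarith
      have h5 := Real.exp_pos (-(29 / 50 : ℝ))
      nlinarith
    rw [hl] at h1
    linarith
  obtain ⟨a⟩ : Nonempty I := Fintype.card_pos_iff.mp (by omega)
  obtain ⟨b⟩ : Nonempty J := Fintype.card_pos_iff.mp (by omega)
  have hu : (fun _ : I × J => 1 / ((N : ℝ) + 1)) =
      ps (1 / ((N : ℝ) + 1)) (insert a (univ.erase a)) (univ : Finset J) := by
    funext e
    unfold ps
    rw [Finset.insert_erase (Finset.mem_univ a)]
    simp
  rw [hu]
  have h1 := step_row (1 / ((N : ℝ) + 1)) (univ : Finset J) (Finset.notMem_erase a univ)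
  have hq0 : (0 : ℝ) ≤ 1 / ((N : ℝ) + 1) := by positivity
  have hq1 : 1 / ((N : ℝ) + 1) ≤ 1 := by
    rw [div_le_one (by positivity)]
    have : (0 : ℝ) ≤ N := Nat.cast_nonneg _
    linarith
  have h2 : 0 ≤ Ex (ps (1 / ((N : ℝ) + 1)) ((univ : Finset I).erase a) (univ : Finset J))
      (fun E => (1 - 1 / ((N : ℝ) + 1)) ^ ((Rm E ∩ univ).card)) := by
    have := Ex_mono (ps_nonneg hq0 ((univ : Finset I).erase a) (univ : Finset J))
      (ps_le_one hq1 _ _) (f := fun _ => 0)
      (g := fun E => (1 - 1 / ((N : ℝ) + 1)) ^ ((Rm E ∩ univ).card))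
      (fun E => pow_nonneg (by linarith) _)
    rwa [Ex_const] at this
  have h3 := step_col (1 / ((N : ℝ) + 1)) ((univ : Finset I).erase a) (univ : Finset J) b
  have h4 : 0 ≤ Ex (ps (1 / ((N : ℝ) + 1)) ((univ : Finset I).erase a) (univ : Finset J))
      (Yj b) := by
    have := Ex_mono (ps_nonneg hq0 ((univ : Finset I).erase a) (univ : Finset J))
      (ps_le_one hq1 _ _) (f := fun _ => 0) (g := Yj b)
      (fun E => by unfold Yj; split_ifs <;> norm_num)
    rwa [Ex_const] at this
  have hcI : ((univ : Finset I).erase a).card = N := by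
    rw [Finset.card_erase_of_mem (Finset.mem_univ a), Finset.card_univ, hI]; rfl
  have hcJ : ((univ : Finset J).erase b).card = N := by
    rw [Finset.card_erase_of_mem (Finset.mem_univ b), Finset.card_univ, hJ]; rfl
  have h5 := fx_upper N hN ((univ : Finset I).erase a) (by rw [hcI]) ((univ : Finset J).erase b)
    (by rw [hcJ]) l hl0 hl1
  rw [hcI, hcJ] at h5
  have hN0 : (0 : ℝ) < N := by exact_mod_cast hN
  have h6 : GG N N N l + (N : ℝ) / N = (2 * (1 - l) - l ^ 2) * N + 1 := by
    unfold GG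
    have e1 : Real.exp (-((N : ℝ) * l / N)) = l := by
      rw [mul_div_cancel_left₀ l hN0.ne']; exact hl
    have e2 : Real.log l = -l := by
      have := congrArg Real.log hl
      rw [Real.log_exp] at this
      exact this.symm
    rw [e1, e2, div_self hN0.ne']
    ring
  rw [h6] at h5
  have h7 : fx (1 / ((N : ℝ) + 1)) (insert a ((univ : Finset I).erase a)) (univ : Finset J) ≤
      (2 * (1 - l) - l ^ 2) * N + 3 := by
    rw [h1]
    linarith
  have h8 : (1 : ℝ) / 2 ≤ 2 * (1 - l) - l ^ 2 := by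
    nlinarith [Real.exp_pos (-l)]
  unfold fx at h7
  linarith

end Pool.KX
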